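import Pool.Agent.Helper145.Toep10

set_option autoImplicit false

open MeasureTheory AddCircle

namespace Pool.Agent.Results.MP_3f635c_an.NotAlgebra

/-- The open unit disc. -/
def disc : Set ℂ := Metric.ball 0 1

/-- `X`, whose elements are realised as functions by the linear map `ev`, is a Banach space of functions analytic
in the unit disc that satisfies conditions 1, 2, 3 of the problem. -/
structure Admissible (X : Type) [NormedAddCommGroup X] [NormedSpace ℂ X] (ev : X →ₗ[ℂ] (ℂ → ℂ)) : Prop where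
  /-- `X` is complete -/
  complete : CompleteSpace X
  /-- the elements of `X` are analytic in the disc -/
  analytic : ∀ x : X, AnalyticOnNhd ℂ (ev x) disc
  /-- an element of `X` is determined by its values in the disc -/
  faithful : ∀ x : X, (∀ z ∈ disc, ev x z = 0) → x = 0
  /-- the point evaluations are continuous -/
  eval_cont : ∀ z ∈ disc, Continuous fun x : X => ev x z
  /-- condition 1: invariance under rotations (even with equality of norms) -/
  rotation : ∀ (x : X) (t : ℝ), ∃ y : X,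
    (∀ z ∈ disc, ev y z = ev x (Complex.exp (Complex.I * t) * z)) ∧ ‖y‖ = ‖x‖
  /-- `X` contains the analytic polynomials -/
  poly_mem : ∀ p : Polynomial ℂ, ∃ x : X, ∀ z ∈ disc, ev x z = p.eval z
  /-- condition 2: the analytic polynomials are dense -/
  poly_dense : Dense {x : X | ∃ p : Polynomial ℂ, ∀ z ∈ disc, ev x z = p.eval z}
  /-- condition 3 for multiplication by `z` -/
  shift : ∃ T : X →L[ℂ] X, (∀ x : X, ∀ z ∈ disc, ev (T x) z = z * ev x z) ∧ spectralRadius ℂ T = 1
  /-- condition 3 for the backward shift `g ↦ (g - g(0)) / z` -/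
  backshift : ∃ B : X →L[ℂ] X, (∀ x : X, ∀ z ∈ disc, z * ev (B x) z = ev x z - ev x 0) ∧
    spectralRadius ℂ B = 1

/-- The Riesz projection of a function on the circle `ℝ/ℤ` (`θ` standing for the point `e^(2 π i θ)`), as a function
on the disc: `∑_{n ≥ 0} (n-th Fourier coefficient) z^n`. -/
noncomputable def rieszProj (F : UnitAddCircle → ℂ) (z : ℂ) : ℂ := ∑' n : ℕ, fourierCoeff F (n : ℤ) * z ^ n

/-- The Toeplitz operator `T_f p = P_+ (f p)` applied to an analytic polynomial `p`. -/
noncomputable def toeplitz (f : UnitAddCircle → ℂ) (p : Polynomial ℂ) : ℂ → ℂ :=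
  rieszProj (fun θ => f θ * p.eval (fourier 1 θ : ℂ))

/-- The symbol space `ST(X)`: the `f ∈ L^∞` of the circle for which `p ↦ T_f p`, defined on the analytic
polynomials, extends to a bounded linear operator from `X` to `X`. -/
def ST (X : Type) [NormedAddCommGroup X] [NormedSpace ℂ X] (ev : X →ₗ[ℂ] (ℂ → ℂ)) :
    Set (UnitAddCircle → ℂ) :=
  {f | MemLp f ⊤ haarAddCircle ∧ ∃ A : X →L[ℂ] X, ∀ (p : Polynomial ℂ) (x : X),
    (∀ z ∈ disc, ev x z = p.eval z) → ∀ z ∈ disc, ev (A x) z = toeplitz f p z}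

open Pool.Agent.Helper145.Toep in
theorem result : ∃ (X : Type) (_ : NormedAddCommGroup X) (_ : NormedSpace ℂ X) (ev : X →ₗ[ℂ] (ℂ → ℂ)),
    Admissible X ev ∧ ∃ f g : UnitAddCircle → ℂ, Continuous f ∧ Continuous g ∧
      f ∈ ST X ev ∧ g ∈ ST X ev ∧ f * g ∉ ST X ev := by
  obtain ⟨S, f, g, hf, hg, ⟨A, hA⟩, ⟨B, hB⟩, hn⟩ := final_data
  have hmem : ∀ (f : UnitAddCircle → ℂ), Continuous f → ∀ A : S.Xs →L[ℂ] S.Xs,
      (∀ (p : Polynomial ℂ) (n : ℕ), S.coef n (A (S.pol p)) = fourierCoeff (fun θ => f θ * bdry p θ) (n:ℤ)) →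
      f ∈ ST S.Xs S.ev := by
    intro f hf A hA
    refine ⟨?_, A, ?_⟩
    · obtain ⟨C, hC⟩ := (isCompact_range hf).isBounded.exists_norm_le
      exact memLp_top_of_bound hf.aestronglyMeasurable C (Filter.Eventually.of_forall (fun θ => hC _ ⟨θ, rfl⟩))
    · intro p x hx z hz
      have hx' : x = S.pol p := S.ev_eq_pol hx
      subst hx'
      rw [S.ev_apply _ hz]
      unfold toeplitz rieszProj ps
      apply tsum_congr
      intro n
      beta_reduce
      rw [hA p n]
      rfl
  refine ⟨S.Xs, inferInstance, inferInstance, S.ev, ?_, f, g, hf, hg, hmem f hf A hA, hmem g hg B hB, ?_⟩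
  · constructor
    · infer_instance
    · exact S.ev_analytic
    · exact S.ev_faithful
    · intro z hz
      exact S.ev_cont hz
    · intro x t
      exact ⟨S.A (Lt.rot t) x, fun z hz => S.ev_rot t x hz, S.rot_norm t x⟩
    · intro p
      exact ⟨S.pol p, fun z hz => S.ev_pol p hz⟩
    · have hd := S.pol_dense
      refine hd.mono ?_
      rintro _ ⟨p, rfl⟩
      exact ⟨p, fun z hz => S.ev_pol p hz⟩
    · exact ⟨S.A (Lt.sh 1), fun x z hz => S.ev_shift x hz, S.spec_pos⟩
    · exact ⟨S.A (Lt.sh (-1)), fun x z hz => S.ev_back x hz, S.spec_neg⟩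
  · rintro ⟨_, A, hA⟩
    apply hn
    refine ⟨A, fun p => ?_⟩
    have h0 : (0:ℂ) ∈ disc := by
      unfold disc
      exact Metric.mem_ball_self one_pos
    have h := hA p (S.pol p) (fun z hz => S.ev_pol p hz) 0 h0
    rw [S.ev_zero] at h
    rw [h]
    unfold toeplitz rieszProj
    rw [tsum_eq_single 0]
    · rw [pow_zero, mul_one]
      rfl
    · intro n hn
      rw [zero_pow hn, mul_zero]

end Pool.Agent.Results.MP_3f635c_an.NotAlgebra
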